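import Pool.Agent.Lib.MP_0655ed_mp.Ion3

namespace Pool.Agent.Results.MP_0655ed_mp.ChargedInsertion

open Pool.Agent.Lib.MP_0655ed_mp

/-- Adding and removing at most `k` particles of each species, with any total charge, changes the
ground state energy of a neutral system of density at most `ρ` by a bounded amount. -/
theorem result {σ Sp : Type} [Fintype σ] [DecidableEq σ] [Fintype Sp] (P : Species σ Sp)
    (hc : ∀ s, P.charge s ≠ 0) (hm : ∀ s, 0 < P.mass s) (hs : ∀ s, (P.spins s).Nonempty)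
    (A : ℝ) (hA : Stable P A) (ρ : ℝ) (hρ : 0 < ρ) (k : ℕ) :
    ∃ C : ℝ, ∀ n n' : σ → ℕ, n ≠ 0 → n' ≠ 0 → ∑ s, n s * P.charge s = 0 →
      (∀ s, n' s ≤ n s + k ∧ n s ≤ n' s + k) → ∀ L : ℝ, 0 < L →
      ((∑ s, n s : ℕ) : ℝ) ≤ ρ * L ^ 3 → |eig P L n' 0 - eig P L n 0| ≤ C :=
  ion_final hm hs hc hA hρ k

end Pool.Agent.Results.MP_0655ed_mp.ChargedInsertion
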