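import Pool.Agent.Lib.MP_0655ed_mp.ImpFinal

namespace Pool.Agent.Results.MP_0655ed_mp.Complete

open Pool.Agent.Lib.MP_0655ed_mp

theorem result {σ Sp : Type} [Fintype σ] [DecidableEq σ] [Fintype Sp] (P : Species σ Sp)
    (hc : ∀ s, P.charge s ≠ 0) (hm : ∀ s, 0 < P.mass s) (hs : ∀ s, (P.spins s).Nonempty)
    (a b : σ) (ha : 0 < P.charge a) (hb : P.charge b = -P.charge a) (A : ℝ) (hA : Stable P A)
    (ρ : ℝ) (hρ : 0 < ρ) :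
    (∃ C : ℝ, ∀ n : σ → ℕ, n ≠ 0 → ∑ s, n s * P.charge s = 0 →
      ∀ L : ℝ, 0 < L → L ^ 3 = (∑ s, n s : ℕ) / ρ →
        |eig P L (n + Pi.single a 1 + Pi.single b 1) 0 - eig P L n 0| ≤ C) ∧
    ∀ T : ℝ, 0 < T →
      (∀ n : σ → ℕ, n ≠ 0 → ∀ L : ℝ, 0 < L → Summable fun k => Real.exp (-eig P L n k / T)) ∧
      (∀ δ : ℝ, 0 < δ → ∃ C : ℝ, ∀ n : σ → ℕ, n ≠ 0 → ∑ s, n s * P.charge s = 0 →
        δ * (∑ s, n s : ℕ) ≤ n a → δ * (∑ s, n s : ℕ) ≤ n b →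
        ∀ L : ℝ, 0 < L → L ^ 3 = (∑ s, n s : ℕ) / ρ →
          |freeEnergy P L (n + Pi.single a 1 + Pi.single b 1) T - freeEnergy P L n T| ≤ C) ∧
      ((∃ C : ℝ, ∀ n : σ → ℕ, n ≠ 0 → ∑ s, n s * P.charge s = 0 →
        ∀ L : ℝ, 0 < L → L ^ 3 = (∑ s, n s : ℕ) / ρ →
          |freeEnergy P L (n + Pi.single a 1 + Pi.single b 1) T - freeEnergy P L n T| ≤ C) ↔
        ∀ n : σ → ℕ, ∑ s, n s * P.charge s = 0 → ∃ k, n = Pi.single a k + Pi.single b k) :=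
  ⟨energy_bounded P hc hm hs a b ha hb A hA ρ hρ, fun T hT =>
    ⟨trace_finite hm hs hA hT, free_dense P hm hs a b ha hb A hA ρ hρ T hT,
      (free_dich P hm hs a b ha hb A hA ρ hρ T hT).2⟩⟩

end Pool.Agent.Results.MP_0655ed_mp.Complete
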