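import Pool.Agent.Lib.MP_0655ed_mp.Final

namespace Pool.Agent.Results.MP_0655ed_mp.FreeEnergy

open Pool.Agent.Lib.MP_0655ed_mp

theorem result {σ Sp : Type} [Fintype σ] [DecidableEq σ] [Fintype Sp] (P : Species σ Sp)
    (hm : ∀ s, 0 < P.mass s) (hs : ∀ s, (P.spins s).Nonempty) (a b : σ) (ha : 0 < P.charge a)
    (hb : P.charge b = -P.charge a) (A : ℝ) (hA : Stable P A) (ρ : ℝ) (hρ : 0 < ρ)
    (T : ℝ) (hT : 0 < T) :
    ∃ C : ℝ, ∀ n : σ → ℕ, n ≠ 0 → ∑ s, n s * P.charge s = 0 →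
      ∀ L : ℝ, 0 < L → L ^ 3 = (∑ s, n s : ℕ) / ρ →
        Summable (fun k => Real.exp (-eig P L n k / T)) ∧
        Summable (fun k => Real.exp (-eig P L (n + Pi.single a 1 + Pi.single b 1) k / T)) ∧
        -C * ((∑ s, n s : ℕ) / (min (n a) (n b) + 1 : ℕ)) ≤
          freeEnergy P L (n + Pi.single a 1 + Pi.single b 1) T - freeEnergy P L n T ∧
        freeEnergy P L (n + Pi.single a 1 + Pi.single b 1) T - freeEnergy P L n T ≤
          C + T * Real.log ((n a + 1) * (n b + 1) / ((∑ s, n s : ℕ) : ℝ) ^ 2) := by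
  obtain ⟨C, hC⟩ := final hm hs ha hb hA hρ (inv_pos.mpr hT)
  refine ⟨T * C, fun n hn hneu L hL hL3 => ?_⟩
  obtain ⟨⟨h1, h2⟩, -, h3, h4⟩ := hC n hn hneu L hL hL3
  have h0 : ∀ x : ℝ, -x / T = -T⁻¹ * x := fun x => by ring
  simp only [freeEnergy, h0]
  have h5 := mul_le_mul_of_nonneg_left h3 hT.le
  have h6 := mul_le_mul_of_nonneg_left h4 hT.le
  exact ⟨h1, h2, by linarith, by linarith⟩

end Pool.Agent.Results.MP_0655ed_mp.FreeEnergy
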